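import Pool.Agent.Lib.KL3.Fin2

set_option autoImplicit false

namespace Pool.Agent.Results.MP_090305_nt.SignChangeThree

/-- For each sign `s = 1` or `s = -1` and all large `X`, at least `X / (log X) ^ A` squarefree
moduli `c ≤ X` with at most three prime factors, at most two of them larger than `(log X) ^ A`,
have a normalised Kloosterman sum `Kl₂(1;c)` of sign `s`. -/
theorem result :
    ∃ A X₀ : ℕ, ∀ X : ℕ, X₀ ≤ X → ∀ s : ℝ, s = 1 ∨ s = -1 →
      (X : ℝ) / Real.log (X : ℝ) ^ A ≤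
        (Set.ncard {c : ℕ | 1 ≤ c ∧ c ≤ X ∧ Squarefree c ∧ c.primeFactors.card ≤ 3 ∧
          (c.primeFactors.filter fun p : ℕ => Real.log (X : ℝ) ^ A < (p : ℝ)).card ≤ 2 ∧
          0 < s * ((∑ x ∈ Finset.range c with Nat.Coprime x c,
            Complex.exp (2 * Real.pi * Complex.I *
              (((((x : ZMod c)⁻¹).val + x : ℕ) : ℂ) / (c : ℂ)))).re / Real.sqrt (c : ℝ))} : ℝ) := by
  obtain ⟨A, X₀, h⟩ := Pool.Agent.Lib.KL3.many_mods2
  refine ⟨A, X₀, fun X hX s hs => (h X hX s hs).trans_eq ?_⟩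
  rw [← Set.ncard_coe_finset]
  refine congrArg _ (congrArg _ (Set.ext fun c => ?_))
  simp only [Pool.Agent.Lib.KL3.Mods2, Finset.coe_filter, Finset.mem_Icc, Set.mem_ofPred_eq,
    and_assoc]
  refine and_congr_right fun h1 => ?_
  rw [Pool.Agent.Lib.MP_090305_nt.sum_eq_kk c (by omega), ← mul_div_assoc,
    div_pos_iff_of_pos_right (Real.sqrt_pos.mpr (by exact_mod_cast h1))]

end Pool.Agent.Results.MP_090305_nt.SignChangeThree
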